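import Mathlib

/-!
# The bound of Mason, Stothers and Voloch modulo a number: core (not a result)
-/

set_option autoImplicit false

open Polynomial

namespace Pool.Agent.Helper4.FX

section core

variable {E : Type} [Field E]

/-- multiplicity of a root of an iterated derivative -/
theorem pow_dvd_iterate_derivative (b : E) (m : ℕ) : ∀ (r : ℕ) (P : E[X]), (X - C b) ^ m ∣ P →
    (X - C b) ^ (m - r) ∣ derivative^[r] P := by
  intro r
  induction r with
  | zero => intro P h; simpa using h
  | succ r ih =>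
    intro P h
    rw [Function.iterate_succ_apply']
    obtain ⟨Q, hQ⟩ := ih P h
    rw [hQ, derivative_mul, derivative_X_sub_C_pow]
    refine dvd_add ?_ ?_
    · rw [show m - (r + 1) = m - r - 1 by omega]
      exact dvd_mul_of_dvd_left (dvd_mul_left _ _) _
    · exact dvd_mul_of_dvd_left (pow_dvd_pow _ (by omega)) _

/-- the matrix of derivatives -/
noncomputable def WM {m : ℕ} (F : Fin m → E[X]) : Matrix (Fin m) (Fin m) E[X] :=
  Matrix.of fun i j => derivative^[(i : ℕ)] (F j)

theorem WM_comb {m : ℕ} (F P : Fin m → E[X]) (v : Fin m → E)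
    (hP : ∀ i, P i = ∑ j : Fin m, C (v i ^ (j : ℕ)) * F j) :
    WM P = WM F * ((Matrix.vandermonde v).transpose.map C) := by
  ext1 r i
  rw [Matrix.mul_apply]
  simp only [WM, Matrix.of_apply, Matrix.map_apply, Matrix.transpose_apply, Matrix.vandermonde_apply]
  rw [hP i, iterate_derivative_sum]
  refine Finset.sum_congr rfl fun j _ => ?_
  rw [iterate_derivative_C_mul, mul_comm]

theorem det_comb {m : ℕ} (F P : Fin m → E[X]) (v : Fin m → E) (hv : Function.Injective v)
    (hP : ∀ i, P i = ∑ j : Fin m, C (v i ^ (j : ℕ)) * F j) :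
    ∃ c : E, c ≠ 0 ∧ (WM P).det = (WM F).det * C c := by
  refine ⟨(Matrix.vandermonde v).det, Matrix.det_vandermonde_ne_zero_iff.2 hv, ?_⟩
  rw [WM_comb F P v hP, Matrix.det_mul]
  congr 1
  have : (Matrix.vandermonde v).transpose.map C = (C : E →+* E[X]).mapMatrix
    (Matrix.vandermonde v).transpose := rfl
  rw [this, ← RingHom.map_det, Matrix.det_transpose]

theorem dvd_det {m : ℕ} (P : Fin m → E[X]) (b : E) (e : Fin m → ℕ)
    (he : ∀ i, (X - C b) ^ (e i) ∣ P i) :
    (X - C b) ^ (∑ i, (e i - (m - 1))) ∣ (WM P).det := by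
  have h1 : ∀ r i : Fin m, (X - C b) ^ (e i - (m - 1)) ∣ WM P r i := by
    intro r i
    refine dvd_trans (pow_dvd_pow _ ?_) (pow_dvd_iterate_derivative b (e i) r (P i) (he i))
    have := r.2
    omega
  choose A hA using h1
  have h2 : WM P = Matrix.of fun r i => (X - C b) ^ (e i - (m - 1)) * A r i := by
    ext1 r i
    rw [Matrix.of_apply]
    exact hA r i
  have h3 := Matrix.det_mul_row (fun i => (X - C b) ^ (e i - (m - 1))) (Matrix.of A)
  have h4 : (Matrix.of fun r i => (X - C b) ^ (e i - (m - 1)) * A r i : Matrix _ _ E[X]).det =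
      (∏ i, (X - C b) ^ (e i - (m - 1))) * (Matrix.of A).det := h3
  rw [h2, h4, Finset.prod_pow_eq_pow_sum]
  exact dvd_mul_right _ _

theorem natDegree_det_le {m : ℕ} (P : Fin m → E[X]) :
    ((WM P).det).natDegree ≤ ∑ i, (P i).natDegree := by
  rw [Matrix.det_apply]
  refine natDegree_sum_le_of_forall_le _ _ fun σ _ => ?_
  refine (natDegree_smul_le _ _).trans ((natDegree_prod_le _ _).trans ?_)
  refine Finset.sum_le_sum fun i _ => ?_
  exact (natDegree_iterate_derivative _ _).trans (Nat.sub_le _ _)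

theorem sum_mult [IsAlgClosed E] [DecidableEq E] (Q : E[X]) (S : Finset E)
    (hS : Q.roots.toFinset ⊆ S) : ∑ b ∈ S, Q.rootMultiplicity b = Q.natDegree := by
  rw [(IsAlgClosed.splits Q).natDegree_eq_card_roots]
  rw [← Multiset.toFinset_sum_count_eq]
  symm
  rw [← Finset.sum_subset hS]
  · exact Finset.sum_congr rfl fun b _ => (count_roots _)
  · intro b _ hb
    rw [← count_roots]
    exact Multiset.count_eq_zero.2 (by rwa [Multiset.mem_toFinset] at hb)

theorem span_comb {m : ℕ} (F P : Fin m → E[X]) (v : Fin m → E) (hv : Function.Injective v)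
    (hP : ∀ i, P i = ∑ j : Fin m, C (v i ^ (j : ℕ)) * F j) (j : Fin m) :
    F j = ∑ i, C ((Matrix.vandermonde v)⁻¹ j i) * P i := by
  have hd : IsUnit (Matrix.vandermonde v).det :=
    isUnit_iff_ne_zero.2 (Matrix.det_vandermonde_ne_zero_iff.2 hv)
  have h := Matrix.nonsing_inv_mul _ hd
  have h1 : ∀ i, C ((Matrix.vandermonde v)⁻¹ j i) * P i =
      ∑ l, C ((Matrix.vandermonde v)⁻¹ j i * Matrix.vandermonde v i l) * F l := by
    intro i
    rw [hP i, Finset.mul_sum]
    refine Finset.sum_congr rfl fun l _ => ?_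
    rw [Matrix.vandermonde_apply, map_mul, mul_assoc]
  rw [Finset.sum_congr rfl fun i _ => h1 i, Finset.sum_comm]
  have h2 : ∀ l, ∑ i, C ((Matrix.vandermonde v)⁻¹ j i * Matrix.vandermonde v i l) * F l =
      C ((1 : Matrix (Fin m) (Fin m) E) j l) * F l := by
    intro l
    rw [← Finset.sum_mul, ← map_sum, ← h, Matrix.mul_apply]
  rw [Finset.sum_congr rfl fun l _ => h2 l, Finset.sum_eq_single j]
  · rw [Matrix.one_apply_eq, map_one, one_mul]
  · intro l _ hl
    rw [Matrix.one_apply_ne (Ne.symm hl), map_zero, zero_mul]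
  · intro h; exact absurd (Finset.mem_univ _) h

theorem core0 (n : ℕ) (F : Fin (n + 1) → E[X])
    (hW : (WM F).det ≠ 0) (hcop : ∀ b, ∃ j, (F j).eval b ≠ 0) (v : Fin (n + 2) → E)
    (hv : Function.Injective v) (P : Fin (n + 2) → E[X])
    (hP : ∀ i, P i = ∑ j : Fin (n + 1), C (v i ^ (j : ℕ)) * F j) :
    (∀ i, P i ≠ 0) ∧ (∀ b, ∃ i, (P i).rootMultiplicity b = 0) := by
  classical
  -- consequences of the Vandermonde determinant
  have hspan : ∀ (i0 : Fin (n + 2)) (j : Fin (n + 1)), ∃ c : Fin (n + 1) → E,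
      F j = ∑ i, C (c i) * P (i0.succAbove i) := fun i0 j =>
    ⟨_, span_comb F (fun i => P (i0.succAbove i)) (fun i => v (i0.succAbove i))
      (hv.comp Fin.succAbove_right_injective) (fun i => hP _) j⟩
  have hdet : ∀ i0 : Fin (n + 2), ∃ c : E, c ≠ 0 ∧
      (WM fun i => P (i0.succAbove i)).det = (WM F).det * C c := fun i0 =>
    det_comb F (fun i => P (i0.succAbove i)) (fun i => v (i0.succAbove i))
      (hv.comp Fin.succAbove_right_injective) (fun i => hP _)
  -- no `P i` vanishes
  have hP0 : ∀ i, P i ≠ 0 := by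
    intro i h0
    obtain ⟨i0, hi0⟩ : ∃ i0 : Fin (n + 2), i0 ≠ i := exists_ne i
    obtain ⟨j, hj⟩ := Fin.exists_succAbove_eq (Ne.symm hi0)
    obtain ⟨c, hc, h⟩ := hdet i0
    have h1 : (WM fun i => P (i0.succAbove i)).det = 0 := by
      apply Matrix.det_eq_zero_of_column_eq_zero j
      intro r
      show derivative^[(r : ℕ)] (P (i0.succAbove j)) = 0
      rw [hj, h0, iterate_derivative_zero]
    rw [h1] at h
    exact mul_ne_zero hW (C_ne_zero.2 hc) h.symm
  -- some `P i` does not vanish at a given point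
  refine ⟨hP0, fun b => ?_⟩
  by_contra hcon
  push Not at hcon
  obtain ⟨j, hj⟩ := hcop b
  obtain ⟨c, hc⟩ := hspan 0 j
  apply hj
  rw [hc, eval_finsetSum]
  refine Finset.sum_eq_zero fun i _ => ?_
  have : (P ((0 : Fin (n + 2)).succAbove i)).IsRoot b := by
    have := hcon ((0 : Fin (n + 2)).succAbove i)
    exact (rootMultiplicity_pos (hP0 _)).1 (Nat.pos_of_ne_zero this)
  rw [eval_mul, this.eq_zero, mul_zero]

theorem core [IsAlgClosed E] (n : ℕ) (F : Fin (n + 1) → E[X])
    (hW : (WM F).det ≠ 0) (hcop : ∀ b, ∃ j, (F j).eval b ≠ 0) (v : Fin (n + 2) → E)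
    (hv : Function.Injective v) (P : Fin (n + 2) → E[X])
    (hP : ∀ i, P i = ∑ j : Fin (n + 1), C (v i ^ (j : ℕ)) * F j)
    (B : Finset E) (hB : ∀ b ∉ B, ∀ i, 2 * n * (n + 2) ∣ (P i).rootMultiplicity b) :
    ∀ j, (F j).natDegree ≤ 2 * (n + 2) * n * B.card := by
  classical
  -- consequences of the Vandermonde determinant
  have hspan : ∀ (i0 : Fin (n + 2)) (j : Fin (n + 1)), ∃ c : Fin (n + 1) → E,
      F j = ∑ i, C (c i) * P (i0.succAbove i) := fun i0 j =>
    ⟨_, span_comb F (fun i => P (i0.succAbove i)) (fun i => v (i0.succAbove i))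
      (hv.comp Fin.succAbove_right_injective) (fun i => hP _) j⟩
  have hdet : ∀ i0 : Fin (n + 2), ∃ c : E, c ≠ 0 ∧
      (WM fun i => P (i0.succAbove i)).det = (WM F).det * C c := fun i0 =>
    det_comb F (fun i => P (i0.succAbove i)) (fun i => v (i0.succAbove i))
      (hv.comp Fin.succAbove_right_injective) (fun i => hP _)
  obtain ⟨hP0, hb⟩ := core0 n F hW hcop v hv P hP
  -- multiplicity of the Wronskian
  have hmult : ∀ b, ∑ i, ((P i).rootMultiplicity b - n) ≤ (WM F).det.rootMultiplicity b := by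
    intro b
    obtain ⟨i0, hi0⟩ := hb b
    rw [Fin.sum_univ_succAbove _ i0, hi0, Nat.zero_sub, zero_add]
    rw [le_rootMultiplicity_iff hW]
    obtain ⟨c, hc, h⟩ := hdet i0
    have h1 := dvd_det (fun i => P (i0.succAbove i)) b
      (fun i => (P (i0.succAbove i)).rootMultiplicity b) (fun i => pow_rootMultiplicity_dvd _ _)
    rw [h, Nat.add_sub_cancel] at h1
    have h2 : IsUnit (C c : E[X]) := isUnit_C.2 (isUnit_iff_ne_zero.2 hc)
    exact (h2.dvd_mul_right).1 h1
  -- degree of the Wronskian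
  have hdeg : ∀ i0, (WM F).det.natDegree + (P i0).natDegree ≤ ∑ i, (P i).natDegree := by
    intro i0
    rw [Fin.sum_univ_succAbove _ i0, add_comm]
    refine Nat.add_le_add_left ?_ _
    obtain ⟨c, hc, h⟩ := hdet i0
    have h1 := natDegree_det_le (fun i => P (i0.succAbove i))
    rwa [h, natDegree_mul_C hc] at h1
  -- the sums over all points
  set S : Finset E := (WM F).det.roots.toFinset ∪ (Finset.univ.biUnion fun i => (P i).roots.toFinset)
    ∪ B with hS
  have hSW : (WM F).det.roots.toFinset ⊆ S := by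
    intro b hb
    exact Finset.mem_union_left _ (Finset.mem_union_left _ hb)
  have hSP : ∀ i, (P i).roots.toFinset ⊆ S := by
    intro i b hb
    exact Finset.mem_union_left _ (Finset.mem_union_right _
      (Finset.mem_biUnion.2 ⟨i, Finset.mem_univ _, hb⟩))
  have hSB : B ⊆ S := Finset.subset_union_right
  have key : ∀ i, 2 * (n + 2) * (P i).natDegree ≤
      2 * (n + 2) * (∑ b ∈ S, ((P i).rootMultiplicity b - n)) + (P i).natDegree +
        2 * (n + 2) * n * B.card := by
    intro i
    rw [← sum_mult (P i) S (hSP i)]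
    have e1 : ∀ b ∈ S, 2 * (n + 2) * (P i).rootMultiplicity b ≤
        2 * (n + 2) * ((P i).rootMultiplicity b - n) + (P i).rootMultiplicity b +
          (if b ∈ B then 2 * (n + 2) * n else 0) := by
      intro b _
      by_cases hbB : b ∈ B
      · rw [if_pos hbB]
        have h1 : (P i).rootMultiplicity b ≤ ((P i).rootMultiplicity b - n) + n := by omega
        have h2 := Nat.mul_le_mul_left (2 * (n + 2)) h1
        have h3 : 2 * (n + 2) * ((P i).rootMultiplicity b - n + n) =
          2 * (n + 2) * ((P i).rootMultiplicity b - n) + 2 * (n + 2) * n := mul_add _ _ _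
        rw [h3] at h2
        omega
      · rw [if_neg hbB]
        obtain ⟨q, hq⟩ := hB b hbB i
        rcases Nat.eq_zero_or_pos q with rfl | hq0
        · rw [hq]; simp
        · have h1 : 2 * n * (n + 2) ≤ (P i).rootMultiplicity b := by
            rw [hq]; exact Nat.le_mul_of_pos_right _ hq0
          have h2 : n ≤ (P i).rootMultiplicity b := by nlinarith
          obtain ⟨r, hr⟩ := Nat.exists_eq_add_of_le h2
          rw [hr] at h1 ⊢
          rw [Nat.add_sub_cancel_left]
          nlinarith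
    have e2 := Finset.sum_le_sum e1
    rw [Finset.sum_add_distrib, Finset.sum_add_distrib, ← Finset.mul_sum, ← Finset.mul_sum] at e2
    have e3 : ∑ b ∈ S, (if b ∈ B then 2 * (n + 2) * n else 0) = 2 * (n + 2) * n * B.card := by
      rw [← Finset.sum_filter, Finset.filter_mem_eq_inter, Finset.inter_eq_right.2 hSB,
        Finset.sum_const, smul_eq_mul, mul_comm]
    rw [e3] at e2
    exact e2
  have key2 : ∑ i, ∑ b ∈ S, ((P i).rootMultiplicity b - n) ≤ (WM F).det.natDegree := by
    rw [Finset.sum_comm, ← sum_mult _ S hSW]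
    exact Finset.sum_le_sum fun b _ => hmult b
  have key3 := Finset.sum_le_sum fun i (_ : i ∈ (Finset.univ : Finset (Fin (n + 2)))) => key i
  rw [Finset.sum_add_distrib, Finset.sum_add_distrib, ← Finset.mul_sum, ← Finset.mul_sum,
    Finset.sum_const, Finset.card_univ, Fintype.card_fin, smul_eq_mul] at key3
  -- the maximal degree
  obtain ⟨i0, -, hi0⟩ := Finset.exists_max_image (Finset.univ : Finset (Fin (n + 2)))
    (fun i => (P i).natDegree) ⟨0, Finset.mem_univ _⟩
  have hmax : ∑ i, (P i).natDegree ≤ (n + 2) * (P i0).natDegree := by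
    calc ∑ i, (P i).natDegree ≤ ∑ _i : Fin (n + 2), (P i0).natDegree :=
          Finset.sum_le_sum fun i _ => hi0 i (Finset.mem_univ _)
      _ = (n + 2) * (P i0).natDegree := by
          rw [Finset.sum_const, Finset.card_univ, Fintype.card_fin, smul_eq_mul]
  have hfin : (P i0).natDegree ≤ 2 * (n + 2) * n * B.card := by
    have h1 := hdeg i0
    set a := (P i0).natDegree
    set s := ∑ i, (P i).natDegree
    set w := (WM F).det.natDegree
    set u := ∑ i, ∑ b ∈ S, ((P i).rootMultiplicity b - n)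
    have h2 : (n + 2) * a ≤ (n + 2) * (2 * (n + 2) * n * B.card) := by
      nlinarith
    exact Nat.le_of_mul_le_mul_left h2 (by omega)
  have hall : ∀ i, (P i).natDegree ≤ 2 * (n + 2) * n * B.card := fun i =>
    (hi0 i (Finset.mem_univ _)).trans hfin
  intro j
  obtain ⟨c, hc⟩ := hspan 0 j
  rw [hc]
  refine natDegree_sum_le_of_forall_le _ _ fun i _ => ?_
  exact (natDegree_C_mul_le _ _).trans (hall _)

end core

end Pool.Agent.Helper4.FX
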