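import Pool.Agent.Helper39.FX.Defs
import Pool.Agent.Helper25.FX.Wr
import Pool.Agent.Helper4.FX.Core

/-!
# `S_MASN`
-/

set_option autoImplicit false

open Polynomial

namespace Pool.Agent.Helper4.FX

open Pool.Agent.Helper39.FX

/-- dividing by a common factor -/
theorem exists_prim {k : Type} [Field k] (n : ℕ) (F : k[X][X]) (hF : F.coeff n ≠ 0) :
    ∃ (g : k[X]) (F1 : k[X][X]), g ≠ 0 ∧ F = C g * F1 ∧
      ∀ d : k[X], (∀ j, d ∣ F1.coeff j) → IsUnit d := by
  classical
  -- choose `F1` with a leading coefficient of minimal degree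
  obtain ⟨F1, ⟨g, hg, hgF⟩, hmin⟩ : ∃ F1 : k[X][X], (∃ g : k[X], g ≠ 0 ∧ F = C g * F1) ∧
      ∀ F2 : k[X][X], (∃ g : k[X], g ≠ 0 ∧ F = C g * F2) →
        (F1.coeff n).natDegree ≤ (F2.coeff n).natDegree := by
    have hne : ∃ d : ℕ, ∃ F1 : k[X][X], (∃ g : k[X], g ≠ 0 ∧ F = C g * F1) ∧
        (F1.coeff n).natDegree = d := ⟨_, F, ⟨1, one_ne_zero, by simp⟩, rfl⟩
    obtain ⟨F1, h1, h2⟩ := Nat.find_spec hne
    refine ⟨F1, h1, fun F2 h3 => ?_⟩
    rw [h2]
    exact Nat.find_min' hne ⟨F2, h3, rfl⟩
  refine ⟨g, F1, hg, hgF, fun d hd => ?_⟩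
  have hF1 : F1.coeff n ≠ 0 := by
    intro h
    apply hF
    rw [hgF, coeff_C_mul, h, mul_zero]
  have hd0 : d ≠ 0 := by
    rintro rfl
    exact hF1 (zero_dvd_iff.1 (hd n))
  obtain ⟨F2, hF2⟩ := (C_dvd_iff_dvd_coeff d F1).2 hd
  have h1 := hmin F2 ⟨g * d, mul_ne_zero hg hd0, by rw [hgF, hF2, map_mul, mul_assoc]⟩
  rw [hF2, coeff_C_mul] at h1
  have hF2n : F2.coeff n ≠ 0 := by
    intro h
    apply hF1
    rw [hF2, coeff_C_mul, h, mul_zero]
  rw [natDegree_mul hd0 hF2n] at h1
  exact isUnit_iff_degree_eq_zero.2 (by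
    rw [degree_eq_natDegree hd0]
    have : d.natDegree = 0 := by omega
    rw [this]; rfl)

/-- polynomials without common divisor have no common root in an extension -/
theorem no_common_root {k E : Type} [Field k] [Field E] [Algebra k E] (F1 : k[X][X])
    (h : ∀ d : k[X], (∀ j, d ∣ F1.coeff j) → IsUnit d) (n : ℕ) (hn : F1.natDegree ≤ n) (b : E) :
    ∃ j : Fin (n + 1), ((F1.coeff j).map (algebraMap k E)).eval b ≠ 0 := by
  by_contra hcon
  push Not at hcon
  -- the ideal of all polynomials which vanish at `b`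
  set I : Ideal k[X] := RingHom.ker (aeval b : k[X] →ₐ[k] E).toRingHom with hI
  have hmem : ∀ j, F1.coeff j ∈ I := by
    intro j
    by_cases hj : j < n + 1
    · have := hcon ⟨j, hj⟩
      rw [hI, RingHom.mem_ker]
      rw [eval_map_algebraMap] at this
      exact this
    · have : F1.coeff j = 0 := coeff_eq_zero_of_natDegree_lt (by omega)
      rw [this]; exact I.zero_mem
  have hprin := IsPrincipalIdealRing.principal I
  set d := Submodule.IsPrincipal.generator I
  have hd : ∀ j, d ∣ F1.coeff j := fun j =>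
    (Submodule.IsPrincipal.mem_iff_generator_dvd I).1 (hmem j)
  have hu := h d hd
  have hdI : d ∈ I := Submodule.IsPrincipal.generator_mem I
  have : I = ⊤ := Ideal.eq_top_of_isUnit_mem I hdI hu
  have h1 : (1 : k[X]) ∈ I := by rw [this]; trivial
  rw [hI, RingHom.mem_ker] at h1
  simp at h1

theorem main : S_MASN := by
  intro n hn
  refine ⟨2 * n * (n + 2), fun h => 2 * (n + 2) * n * ((n + 2) * h), by positivity, ?_⟩
  intro p hp hnp F hFn hFc hw A h hA hAh hcong
  classical
  obtain ⟨g, F1, hg, hgF, hprim⟩ := exists_prim n F hFc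
  refine ⟨g, F1, hg, hgF, ?_⟩
  set k := ZMod p
  set E := AlgebraicClosure k
  set φ : k →+* E := algebraMap k E with hφ
  have hinj : Function.Injective φ := φ.injective
  -- the polynomial `F1`
  have hF1n : F1.natDegree ≤ n := by
    rw [hgF, natDegree_C_mul hg] at hFn
    exact hFn
  have hF1c : F1.coeff n ≠ 0 := by
    intro h0
    apply hFc
    rw [hgF, coeff_C_mul, h0, mul_zero]
  have hw1 : wr n F1 ≠ 0 := by
    intro h0
    apply hw
    rw [hgF, Pool.Agent.Helper25.FX.wr_C_mul, h0, mul_zero]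
  -- over the algebraic closure
  set G : Fin (n + 1) → E[X] := fun j => (F1.coeff (j : ℕ)).map φ with hG
  set v : Fin (n + 2) → E := fun i => ((i : ℕ) : E) with hv
  set P : Fin (n + 2) → E[X] := fun i => (F1.eval ((i : ℕ) : k[X])).map φ with hP
  have hWG : (WM G).det = (wr n F1).map φ := by
    have h1 : WM G = (mapRingHom φ).mapMatrix
        (Matrix.of fun i j : Fin (n + 1) => derivative^[(i : ℕ)] (F1.coeff (j : ℕ))) := by
      ext1 r j
      rw [RingHom.mapMatrix_apply, Matrix.map_apply, Matrix.of_apply, coe_mapRingHom,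
        ← iterate_derivative_map]
      rfl
    rw [h1, ← RingHom.map_det]
    rfl
  have hWG0 : (WM G).det ≠ 0 := by
    rw [hWG]
    exact (Polynomial.map_ne_zero_iff hinj).2 hw1
  have hvi : Function.Injective v := by
    have : CharP E p := charP_of_injective_algebraMap hinj p
    intro i j hij
    have h1 : ((i : ℕ) : E) = ((j : ℕ) : E) := hij
    have h2 := (CharP.natCast_eq_natCast E p).1 h1
    apply Fin.ext
    have hi := i.2
    have hj := j.2
    exact Nat.ModEq.eq_of_lt_of_lt h2 (by omega) (by omega)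
  have hPG : ∀ i, P i = ∑ j : Fin (n + 1), C (v i ^ (j : ℕ)) * G j := by
    intro i
    have h1 : F1.eval ((i : ℕ) : k[X]) =
        ∑ j : Fin (n + 1), F1.coeff (j : ℕ) * ((i : ℕ) : k[X]) ^ (j : ℕ) := by
      rw [eval_eq_sum_range' (Nat.lt_succ_of_le hF1n), Finset.sum_range]
    show (F1.eval ((i : ℕ) : k[X])).map φ = _
    rw [h1, Polynomial.map_sum]
    refine Finset.sum_congr rfl fun j _ => ?_
    rw [Polynomial.map_mul, Polynomial.map_pow, Polynomial.map_natCast, mul_comm]
    show _ = C (((i : ℕ) : E) ^ (j : ℕ)) * (F1.coeff (j : ℕ)).map φ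
    rw [map_pow, map_natCast]
  -- the bad points
  set B : Finset E := Finset.univ.biUnion fun i => ((A i).map φ).roots.toFinset with hB
  have hBcard : B.card ≤ (n + 2) * h := by
    refine Finset.card_biUnion_le.trans ?_
    calc ∑ i : Fin (n + 2), ((A i).map φ).roots.toFinset.card ≤ ∑ _i : Fin (n + 2), h := by
          refine Finset.sum_le_sum fun i _ => ?_
          refine (Multiset.toFinset_card_le _).trans ((card_roots' _).trans ?_)
          rw [natDegree_map]
          exact hAh i
      _ = (n + 2) * h := by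
          rw [Finset.sum_const, Finset.card_univ, Fintype.card_fin, smul_eq_mul]
  have hcop : ∀ b, ∃ j, (G j).eval b ≠ 0 := fun b => no_common_root F1 hprim n hF1n b
  obtain ⟨hP0, hP1⟩ := core0 n G hWG0 hcop v hvi P hPG
  have hfin := core n G hWG0 hcop v hvi P hPG B (by
    intro b hb
    have hbA : ∀ i, ((A i).map φ).rootMultiplicity b = 0 := by
      intro i
      rw [← count_roots]
      refine Multiset.count_eq_zero.2 fun hmem => hb ?_
      exact Finset.mem_biUnion.2 ⟨i, Finset.mem_univ _, Multiset.mem_toFinset.2 hmem⟩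
    have hg0 : g.map φ ≠ 0 := (Polynomial.map_ne_zero_iff hinj).2 hg
    have e1 : ∀ i : Fin (n + 2), ((F.eval ((i : ℕ) : k[X])).map φ).rootMultiplicity b =
        (g.map φ).rootMultiplicity b + (P i).rootMultiplicity b := by
      intro i
      have h1 : (F.eval ((i : ℕ) : k[X])).map φ = g.map φ * P i := by
        rw [hgF, eval_mul, eval_C, Polynomial.map_mul]
      rw [h1, rootMultiplicity_mul (mul_ne_zero hg0 (hP0 i))]
    have e2 : ((F.coeff n).map φ).rootMultiplicity b =
        (g.map φ).rootMultiplicity b + ((F1.coeff n).map φ).rootMultiplicity b := by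
      have h1 : (F.coeff n).map φ = g.map φ * (F1.coeff n).map φ := by
        rw [hgF, coeff_C_mul, Polynomial.map_mul]
      rw [h1, rootMultiplicity_mul (mul_ne_zero hg0 ((Polynomial.map_ne_zero_iff hinj).2 hF1c))]
    have e3 : ∀ i : Fin (n + 2), ((2 * n * (n + 2) : ℕ) : ℤ) ∣
        ((P i).rootMultiplicity b : ℤ) - ((F1.coeff n).map φ).rootMultiplicity b := by
      intro i
      have h1 := hcong i b
      rw [e1 i, e2, hbA i] at h1
      push_cast at h1 ⊢
      have h2 : (((g.map φ).rootMultiplicity b : ℤ) + (P i).rootMultiplicity b -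
          ((g.map φ).rootMultiplicity b + ((F1.coeff n).map φ).rootMultiplicity b) - 0) =
          ((P i).rootMultiplicity b : ℤ) - ((F1.coeff n).map φ).rootMultiplicity b := by ring
      rw [h2] at h1
      exact h1
    obtain ⟨i0, hi0⟩ := hP1 b
    intro i
    have h3 := dvd_sub (e3 i) (e3 i0)
    rw [hi0, Nat.cast_zero, sub_sub_sub_cancel_right, sub_zero] at h3
    exact Int.natCast_dvd_natCast.1 h3)
  intro j
  show (F1.coeff j).natDegree ≤ 2 * (n + 2) * n * ((n + 2) * h)
  by_cases hj : j < n + 1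
  · have h1 := hfin ⟨j, hj⟩
    have h2 : (G ⟨j, hj⟩).natDegree = (F1.coeff j).natDegree := by
      show ((F1.coeff j).map φ).natDegree = _
      rw [natDegree_map]
    rw [h2] at h1
    exact h1.trans (Nat.mul_le_mul_left _ hBcard)
  · rw [coeff_eq_zero_of_natDegree_lt (by omega), natDegree_zero]
    exact Nat.zero_le _

end Pool.Agent.Helper4.FX
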